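import Mathlib
import Pool.Agent.W388.TW.D0
import Pool.Agent.W192.CY.Stm

/-!
# Nonvanishing of `L(E, χ, 1)` for characters of large order, all conductors (owner helper192)

`E/ℚ` an elliptic curve of conductor `N`, `χ` a primitive Dirichlet character mod `q`, `(q, N) = 1`,
of order `≥ q ^ (3/4 + ε)`, `q` large: some Galois conjugate `ψ` of `χ` has
`|L(E, ψ, 1)| ≥ q ^ (-ε)`.

General form (composite moduli) of the parts of `Stm`.  The parts COEF, DIV, HAS stay in `Stm`.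
Every `def G_... : Prop` is the statement of one part of the project.
-/

set_option autoImplicit false

open Complex Filter Topology Set UpperHalfPlane MatrixGroups CongruenceSubgroup

namespace Pool.Agent.W192.CY

/-- the common kernel of the powers `ψ` of `χ₀` with `ψ ^ e = 1` -/
def Hg (q : ℕ) (χ₀ : DirichletCharacter ℂ q) (e : ℕ) : Subgroup (ZMod q)ˣ where
  carrier := {x | ∀ ψ : DirichletCharacter ℂ q, ψ ∈ Subgroup.zpowers χ₀ → ψ ^ e = 1 →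
    ψ (x : ZMod q) = 1}
  one_mem' := fun ψ _ _ => by simp
  mul_mem' := fun {x y} hx hy ψ h0 h => by
    rw [Units.val_mul, map_mul, hx ψ h0 h, hy ψ h0 h, one_mul]
  inv_mem' := fun {x} hx ψ h0 h => by
    have h1 : ψ (x : ZMod q) * ψ ((x⁻¹ : (ZMod q)ˣ) : ZMod q) = 1 := by
      rw [← map_mul, ← Units.val_mul, mul_inv_cancel, Units.val_one, map_one]
    rw [hx ψ h0 h, one_mul] at h1
    exact h1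

/-- the powers `ψ` of `χ₀` with `ψ ^ e = 1` -/
noncomputable def Cg (q : ℕ) [NeZero q] (χ₀ : DirichletCharacter ℂ q) (e : ℕ) :
    Finset (DirichletCharacter ℂ q) :=
  (Set.toFinite {ψ : DirichletCharacter ℂ q | ψ ∈ Subgroup.zpowers χ₀ ∧ ψ ^ e = 1}).toFinset

/-- the powers of `χ₀` of the same order as `χ₀` -/
noncomputable def Eg (q : ℕ) [NeZero q] (χ₀ : DirichletCharacter ℂ q) :
    Finset (DirichletCharacter ℂ q) :=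
  (Set.toFinite {ψ : DirichletCharacter ℂ q | ψ ∈ Subgroup.zpowers χ₀ ∧
    orderOf ψ = orderOf χ₀}).toFinset

/-- ORTH : orthogonality for the powers of `χ₀` with `χ ^ e = 1` -/
def G_ORTH : Prop := ∀ (q : ℕ) [NeZero q] (χ₀ : DirichletCharacter ℂ q) (e : ℕ), e ∣ orderOf χ₀ →
  e * Nat.card (Hg q χ₀ e) = Nat.totient q ∧
  ∀ x : (ZMod q)ˣ, (x ∈ Hg q χ₀ e → ∑ χ ∈ Cg q χ₀ e, χ (x : ZMod q) = (e : ℂ)) ∧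
    (x ∉ Hg q χ₀ e → ∑ χ ∈ Cg q χ₀ e, χ (x : ZMod q) = 0)

/-- MOB : Möbius inversion -/
def G_MOB : Prop := ∀ (q : ℕ) [NeZero q] (χ₀ : DirichletCharacter ℂ q),
  (Eg q χ₀).card = Nat.totient (orderOf χ₀) ∧
  ∀ g : DirichletCharacter ℂ q → ℂ, ∑ χ ∈ Eg q χ₀, g χ =
    ∑ e ∈ (orderOf χ₀).divisors,
      ((ArithmeticFunction.moebius (orderOf χ₀ / e) : ℤ) : ℂ) * ∑ χ ∈ Cg q χ₀ e, g χ

/-- WPP : Kloosterman sums to a prime power modulus `p ^ k`, `k ≥ 2` -/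
def G_WPP : Prop := ∃ C : ℝ, 0 < C ∧ ∀ (p k : ℕ) [NeZero (p ^ k)], p.Prime → 2 ≤ k →
  ∀ (a b : ZMod (p ^ k)), IsUnit b →
  ‖∑ u : (ZMod (p ^ k))ˣ, (ZMod.stdAddChar (N := p ^ k)
    (a * (u : ZMod (p ^ k)) + b * ((u⁻¹ : (ZMod (p ^ k))ˣ) : ZMod (p ^ k))) : ℂ)‖ ≤
    (if p = 2 then C else 2) * Real.sqrt ((p : ℝ) ^ k)

/-- WEIL : Kloosterman sums to a general modulus -/
def G_WEIL : Prop := ∀ η : ℝ, 0 < η → ∃ C : ℝ, 0 < C ∧ ∀ (q : ℕ) [NeZero q] (a b : ZMod q),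
  IsUnit b →
  ‖∑ u : (ZMod q)ˣ, (ZMod.stdAddChar (N := q)
    (a * (u : ZMod q) + b * ((u⁻¹ : (ZMod q)ˣ) : ZMod q)) : ℂ)‖ ≤ C * (q : ℝ) ^ (1 / 2 + η)

/-- KLOO : Kloosterman sums on average over a coset of `Hg q χ₀ e` -/
def G_KLOO : Prop := ∀ η : ℝ, 0 < η → ∃ C : ℝ, 0 < C ∧ ∀ (q : ℕ) [NeZero q]
  (χ₀ : DirichletCharacter ℂ q) (e : ℕ), e ∣ orderOf χ₀ → ∀ y : (ZMod q)ˣ,
  ‖∑ χ ∈ Cg q χ₀ e, χ (y : ZMod q) * gaussSum χ (ZMod.stdAddChar (N := q)) ^ 2‖ ≤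
    C * (q : ℝ) ^ (3 / 2 + η)

/-- COUNT -/
def G_COUNT : Prop := ∀ (j : ℕ), 1 ≤ j → ∀ η : ℝ, 0 < η → ∃ C : ℝ, 0 < C ∧
  ∀ (q : ℕ) [NeZero q] (H : Subgroup (ZMod q)ˣ) (y : ℝ), 1 ≤ y →
    (cnt q H y : ℝ) ^ j ≤ C * y ^ η * (y ^ j / q + 1) * Nat.card H

/-- TAIL -/
def G_TAIL : Prop := ∀ ε : ℝ, 0 < ε → ε < 1 / 4 → ∃ η δ C : ℝ, 0 < η ∧ η < 1 / 8 ∧ 0 < δ ∧ 0 < C ∧
  ∀ (q : ℕ) [NeZero q] (d e : ℕ), e ∣ d → d ≤ q → (q : ℝ) ^ (3 / 4 + ε) ≤ d →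
  ∀ H : Subgroup (ZMod q)ˣ, e * Nat.card H ≤ q →
    (e : ℝ) * tail q H ((q : ℝ) ^ (ε / 2)) ((q : ℝ) ^ (3 / 2 + ε / 2)) η ≤ C * d * (q : ℝ) ^ (-δ)

/-- AFE : the value at the centre -/
def G_AFE : Prop := ∀ (N : ℕ) [NeZero N] (f : CuspForm (Gamma0 N : Subgroup (GL (Fin 2) ℝ)) 2)
  (ε : ℝ), W388.IsNewf N 2 f ε → ∀ (q : ℕ) [NeZero q] (χ : DirichletCharacter ℂ q),
  Nat.Coprime q N → χ.IsPrimitive →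
  ∃ F : ℂ → ℂ, Differentiable ℂ F ∧
    (∀ s : ℂ, 1 < s.re → F s = ∑' n : ℕ, χ (n : ZMod q) * (W388.lamf f n : ℂ) * (n : ℂ) ^ (-s)) ∧
    ∀ X Y : ℝ, 0 < X → 0 < Y → X * Y = N * (q : ℝ) ^ 2 / (4 * Real.pi ^ 2) →
      F (1 / 2) =
        ∑' n : ℕ, χ (n : ZMod q) * (((qExpansion 1 f).coeff n).re : ℂ) / n *
          (Real.exp (-(n / X)) : ℂ) +
        (ε : ℂ) * χ (N : ZMod q) * gaussSum χ (ZMod.stdAddChar (N := q)) ^ 2 / q *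
          ∑' n : ℕ, (starRingEnd ℂ) (χ (n : ZMod q)) * (((qExpansion 1 f).coeff n).re : ℂ) / n *
          (Real.exp (-(n / Y)) : ℂ)

/-- MAINP : the main part, mollified -/
def G_MAINP : Prop := ∀ (c m : ℕ → ℝ), c 1 = 1 → Inv c m → ∀ ε : ℝ, 0 < ε → ε < 1 / 4 →
  ∃ δ C q0 : ℝ, 0 < δ ∧ 0 < C ∧ ∀ (q : ℕ) [NeZero q], q0 ≤ q → ∀ χ₀ : DirichletCharacter ℂ q,
  (q : ℝ) ^ (3 / 4 + ε) ≤ orderOf χ₀ →
  ‖∑ b ∈ Finset.Icc 1 ⌊(q : ℝ) ^ (ε / 2)⌋₊, ((m b / b : ℝ) : ℂ) * ∑ χ ∈ Eg q χ₀,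
      χ (b : ZMod q) * (∑' n : ℕ, χ (n : ZMod q) * (c n : ℂ) / n *
        (Real.exp (-(n / (q : ℝ) ^ (3 / 2 : ℝ))) : ℂ)) - (Nat.totient (orderOf χ₀) : ℂ)‖ ≤
    C * orderOf χ₀ * (q : ℝ) ^ (-δ)

/-- DUALP : the dual part -/
def G_DUALP : Prop := ∀ (N : ℕ), 1 ≤ N → ∀ (c m : ℕ → ℝ), Inv c m → ∀ ε : ℝ, 0 < ε → ε < 1 / 4 →
  ∃ δ C q0 : ℝ, 0 < δ ∧ 0 < C ∧ ∀ (q : ℕ) [NeZero q], q0 ≤ q → Nat.Coprime q N →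
  ∀ χ₀ : DirichletCharacter ℂ q, (q : ℝ) ^ (3 / 4 + ε) ≤ orderOf χ₀ →
  ‖∑ b ∈ Finset.Icc 1 ⌊(q : ℝ) ^ (ε / 2)⌋₊, ((m b / b : ℝ) : ℂ) * ∑ χ ∈ Eg q χ₀,
      χ (b : ZMod q) * (χ (N : ZMod q) * gaussSum χ (ZMod.stdAddChar (N := q)) ^ 2 / q *
        ∑' n : ℕ, (starRingEnd ℂ) (χ (n : ZMod q)) * (c n : ℂ) / n *
        (Real.exp (-(n / (N * Real.sqrt q / (4 * Real.pi ^ 2)))) : ℂ))‖ ≤
    C * orderOf χ₀ * (q : ℝ) ^ (-δ)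

/-- FINN : conclusion in abstract form -/
def G_FINN : Prop := ∀ (N : ℕ), 1 ≤ N → ∀ (c : ℕ → ℝ) (w : ℂ), Coef N c → ‖w‖ = 1 →
  ∀ ε : ℝ, 0 < ε → ∃ q0 : ℝ, ∀ (q : ℕ) [NeZero q], q0 ≤ q → Nat.Coprime q N →
  ∀ L : DirichletCharacter ℂ q → ℂ,
    (∀ χ : DirichletCharacter ℂ q, χ.IsPrimitive → ∀ X Y : ℝ, 0 < X → 0 < Y →
      X * Y = N * (q : ℝ) ^ 2 / (4 * Real.pi ^ 2) →
      L χ = ∑' n : ℕ, χ (n : ZMod q) * (c n : ℂ) / n * (Real.exp (-(n / X)) : ℂ) +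
        w * χ (N : ZMod q) * gaussSum χ (ZMod.stdAddChar (N := q)) ^ 2 / q *
          ∑' n : ℕ, (starRingEnd ℂ) (χ (n : ZMod q)) * (c n : ℂ) / n *
          (Real.exp (-(n / Y)) : ℂ)) →
    ∀ χ₀ : DirichletCharacter ℂ q, χ₀.IsPrimitive → (q : ℝ) ^ (3 / 4 + ε) ≤ orderOf χ₀ →
      ∃ a : ℕ, Nat.Coprime a (orderOf χ₀) ∧ (χ₀ ^ a).IsPrimitive ∧
        (q : ℝ) ^ (-ε) ≤ ‖L (χ₀ ^ a)‖

end Pool.Agent.W192.CY
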