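import Mathlib
import Pool.Agent.W388.TW.D0
import Pool.Agent.W192.CY.Stn

/-!
# Nonvanishing of `L(f, χ, k/2)` for characters of large order, even weight `k` (owner helper192)

The same as `Stn` with a general weight function in the approximate functional equation.
-/

set_option autoImplicit false

open Complex Filter Topology Set UpperHalfPlane MatrixGroups CongruenceSubgroup

namespace Pool.Agent.W192.CY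

/-- conditions on the weight function -/
structure VW (V : ℝ → ℝ) (C : ℝ) : Prop where
  pos : 0 < C
  dec : ∀ x : ℝ, 0 ≤ x → |V x| ≤ C * Real.exp (-(x / 2))
  one : ∀ x : ℝ, 0 ≤ x → |1 - V x| ≤ C * x

/-- `Γ(m, x) / Γ(m)` -/
noncomputable def Vk (m : ℕ) (x : ℝ) : ℝ :=
  Real.exp (-x) * ∑ j ∈ Finset.range m, x ^ j / (j.factorial : ℝ)

/-- VK : `Vk` is a weight function -/
def K_VK : Prop := ∀ m : ℕ, 1 ≤ m → ∃ C : ℝ, VW (Vk m) C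

/-- MAINP -/
def K_MAINP : Prop := ∀ (V : ℝ → ℝ) (CV : ℝ), VW V CV → ∀ (c m : ℕ → ℝ), c 1 = 1 → Inv c m →
  ∀ ε : ℝ, 0 < ε → ε < 1 / 4 →
  ∃ δ C q0 : ℝ, 0 < δ ∧ 0 < C ∧ ∀ (q : ℕ) [NeZero q], q0 ≤ q → ∀ χ₀ : DirichletCharacter ℂ q,
  (q : ℝ) ^ (3 / 4 + ε) ≤ orderOf χ₀ →
  ‖∑ b ∈ Finset.Icc 1 ⌊(q : ℝ) ^ (ε / 2)⌋₊, ((m b / b : ℝ) : ℂ) * ∑ χ ∈ Eg q χ₀,
      χ (b : ZMod q) * (∑' n : ℕ, χ (n : ZMod q) * (c n : ℂ) / n *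
        (V (n / ((q : ℝ) ^ (3 / 2 : ℝ) / 2)) : ℂ)) - (Nat.totient (orderOf χ₀) : ℂ)‖ ≤
    C * orderOf χ₀ * (q : ℝ) ^ (-δ)

/-- DUALP -/
def K_DUALP : Prop := ∀ (V : ℝ → ℝ) (CV : ℝ), VW V CV → ∀ (N : ℕ), 1 ≤ N → ∀ (c m : ℕ → ℝ),
  Inv c m → ∀ ε : ℝ, 0 < ε → ε < 1 / 4 →
  ∃ δ C q0 : ℝ, 0 < δ ∧ 0 < C ∧ ∀ (q : ℕ) [NeZero q], q0 ≤ q → Nat.Coprime q N →
  ∀ χ₀ : DirichletCharacter ℂ q, (q : ℝ) ^ (3 / 4 + ε) ≤ orderOf χ₀ →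
  ‖∑ b ∈ Finset.Icc 1 ⌊(q : ℝ) ^ (ε / 2)⌋₊, ((m b / b : ℝ) : ℂ) * ∑ χ ∈ Eg q χ₀,
      χ (b : ZMod q) * (χ (N : ZMod q) * gaussSum χ (ZMod.stdAddChar (N := q)) ^ 2 / q *
        ∑' n : ℕ, (starRingEnd ℂ) (χ (n : ZMod q)) * (c n : ℂ) / n *
        (V (n / (N * Real.sqrt q / (2 * Real.pi ^ 2))) : ℂ))‖ ≤
    C * orderOf χ₀ * (q : ℝ) ^ (-δ)

/-- FINN -/
def K_FINN : Prop := ∀ (V : ℝ → ℝ) (CV : ℝ), VW V CV → ∀ (N : ℕ), 1 ≤ N → ∀ (c : ℕ → ℝ) (w : ℂ),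
  Coef N c → ‖w‖ = 1 →
  ∀ ε : ℝ, 0 < ε → ∃ q0 : ℝ, ∀ (q : ℕ) [NeZero q], q0 ≤ q → Nat.Coprime q N →
  ∀ L : DirichletCharacter ℂ q → ℂ,
    (∀ χ : DirichletCharacter ℂ q, χ.IsPrimitive → ∀ X Y : ℝ, 0 < X → 0 < Y →
      X * Y = N * (q : ℝ) ^ 2 / (4 * Real.pi ^ 2) →
      L χ = ∑' n : ℕ, χ (n : ZMod q) * (c n : ℂ) / n * (V (n / X) : ℂ) +
        w * χ (N : ZMod q) * gaussSum χ (ZMod.stdAddChar (N := q)) ^ 2 / q *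
          ∑' n : ℕ, (starRingEnd ℂ) (χ (n : ZMod q)) * (c n : ℂ) / n *
          (V (n / Y) : ℂ)) →
    ∀ χ₀ : DirichletCharacter ℂ q, χ₀.IsPrimitive → (q : ℝ) ^ (3 / 4 + ε) ≤ orderOf χ₀ →
      ∃ a : ℕ, Nat.Coprime a (orderOf χ₀) ∧ (χ₀ ^ a).IsPrimitive ∧
        (q : ℝ) ^ (-ε) ≤ ‖L (χ₀ ^ a)‖

/-- AFE : the value at the centre, weight `2 m` -/
def K_AFE : Prop := ∀ (m : ℕ), 1 ≤ m → ∀ (N : ℕ) [NeZero N]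
  (f : CuspForm (Gamma0 N : Subgroup (GL (Fin 2) ℝ)) (2 * m : ℤ))
  (ε : ℝ), W388.IsNewf N (2 * m : ℤ) f ε → ∀ (q : ℕ) [NeZero q] (χ : DirichletCharacter ℂ q),
  Nat.Coprime q N → χ.IsPrimitive →
  ∃ F : ℂ → ℂ, Differentiable ℂ F ∧
    (∀ s : ℂ, 1 < s.re → F s = ∑' n : ℕ, χ (n : ZMod q) * (W388.lamf f n : ℂ) * (n : ℂ) ^ (-s)) ∧
    ∀ X Y : ℝ, 0 < X → 0 < Y → X * Y = N * (q : ℝ) ^ 2 / (4 * Real.pi ^ 2) →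
      F (1 / 2) =
        ∑' n : ℕ, χ (n : ZMod q) * ((((qExpansion 1 f).coeff n).re / (n : ℝ) ^ (m - 1) : ℝ) : ℂ) / n *
          (Vk m (n / X) : ℂ) +
        (ε : ℂ) * χ (N : ZMod q) * gaussSum χ (ZMod.stdAddChar (N := q)) ^ 2 / q *
          ∑' n : ℕ, (starRingEnd ℂ) (χ (n : ZMod q)) *
            ((((qExpansion 1 f).coeff n).re / (n : ℝ) ^ (m - 1) : ℝ) : ℂ) / n *
          (Vk m (n / Y) : ℂ)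

end Pool.Agent.W192.CY
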