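import Mathlib
import Pool.Agent.W388.TW.D0
import Pool.Agent.W192.CY.Stk

/-!
# Nonvanishing for characters of large order, conjugates in a residue class (owner helper192)

`Stk` gives a Galois conjugate `χ ^ a` with large central value; here moreover `a ≡ 1 mod M` with `M`
fixed.  (This is what is needed for newforms with arbitrary coefficient field.)
-/

set_option autoImplicit false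

open Complex Filter Topology Set UpperHalfPlane MatrixGroups CongruenceSubgroup

namespace Pool.Agent.W192.CY

/-- the powers `χ₀ ^ a` with `a` prime to the order of `χ₀` and `a ≡ 1 mod M` -/
noncomputable def Em (q : ℕ) [NeZero q] (χ₀ : DirichletCharacter ℂ q) (M : ℕ) :
    Finset (DirichletCharacter ℂ q) :=
  (Set.toFinite {ψ : DirichletCharacter ℂ q | ∃ a : ℕ, Nat.Coprime a (orderOf χ₀) ∧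
    a % M = 1 % M ∧ ψ = χ₀ ^ a}).toFinset

/-- MOB : Möbius inversion in a residue class.  (For `r ∣ d`, `(r, M) = 1` take `t r` with
`r ∣ t r`, `t r ≡ 1 mod M`.) -/
def M_MOB : Prop := ∀ (q : ℕ) [NeZero q] (χ₀ : DirichletCharacter ℂ q) (M : ℕ), 1 ≤ M →
  M ∣ orderOf χ₀ → ∃ t : ℕ → ℕ,
  (Em q χ₀ M).card * Nat.totient M = Nat.totient (orderOf χ₀) ∧
  ∀ g : DirichletCharacter ℂ q → ℂ, ∑ χ ∈ Em q χ₀ M, g χ =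
    ∑ r ∈ (orderOf χ₀).divisors.filter (fun r => Nat.Coprime r M),
      ((ArithmeticFunction.moebius r : ℤ) : ℂ) *
        ∑ ψ ∈ Cg q χ₀ (orderOf χ₀ / (r * M)), g (χ₀ ^ (t r) * ψ)

/-- KLOO : shifted -/
def M_KLOO : Prop := ∀ η : ℝ, 0 < η → ∃ C : ℝ, 0 < C ∧ ∀ (q : ℕ) [NeZero q]
  (χ₀ : DirichletCharacter ℂ q) (e t : ℕ), e ∣ orderOf χ₀ → ∀ y : (ZMod q)ˣ,
  ‖∑ χ ∈ Cg q χ₀ e, (χ₀ ^ t * χ) (y : ZMod q) *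
    gaussSum (χ₀ ^ t * χ) (ZMod.stdAddChar (N := q)) ^ 2‖ ≤ C * (q : ℝ) ^ (3 / 2 + η)

/-- MAINP : `δ`, `C`, `q0` do not depend on `M` -/
def M_MAINP : Prop := ∀ (V : ℝ → ℝ) (CV : ℝ), VW V CV → ∀ (c m : ℕ → ℝ), c 1 = 1 → Inv c m →
  ∀ ε : ℝ, 0 < ε → ε < 1 / 4 →
  ∃ δ C q0 : ℝ, 0 < δ ∧ 0 < C ∧ ∀ (q : ℕ) [NeZero q], q0 ≤ q → ∀ χ₀ : DirichletCharacter ℂ q,
  (q : ℝ) ^ (3 / 4 + ε) ≤ orderOf χ₀ → ∀ M : ℕ, 1 ≤ M → M ∣ orderOf χ₀ →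
  ‖∑ b ∈ Finset.Icc 1 ⌊(q : ℝ) ^ (ε / 2)⌋₊, ((m b / b : ℝ) : ℂ) * ∑ χ ∈ Em q χ₀ M,
      χ (b : ZMod q) * (∑' n : ℕ, χ (n : ZMod q) * (c n : ℂ) / n *
        (V (n / ((q : ℝ) ^ (3 / 2 : ℝ) / 2)) : ℂ)) - ((Em q χ₀ M).card : ℂ)‖ ≤
    C * orderOf χ₀ * (q : ℝ) ^ (-δ)

/-- DUALP -/
def M_DUALP : Prop := ∀ (V : ℝ → ℝ) (CV : ℝ), VW V CV → ∀ (N : ℕ), 1 ≤ N → ∀ (c m : ℕ → ℝ),
  Inv c m → ∀ ε : ℝ, 0 < ε → ε < 1 / 4 →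
  ∃ δ C q0 : ℝ, 0 < δ ∧ 0 < C ∧ ∀ (q : ℕ) [NeZero q], q0 ≤ q → Nat.Coprime q N →
  ∀ χ₀ : DirichletCharacter ℂ q, (q : ℝ) ^ (3 / 4 + ε) ≤ orderOf χ₀ → ∀ M : ℕ, 1 ≤ M →
  M ∣ orderOf χ₀ →
  ‖∑ b ∈ Finset.Icc 1 ⌊(q : ℝ) ^ (ε / 2)⌋₊, ((m b / b : ℝ) : ℂ) * ∑ χ ∈ Em q χ₀ M,
      χ (b : ZMod q) * (χ (N : ZMod q) * gaussSum χ (ZMod.stdAddChar (N := q)) ^ 2 / q *
        ∑' n : ℕ, (starRingEnd ℂ) (χ (n : ZMod q)) * (c n : ℂ) / n *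
        (V (n / (N * Real.sqrt q / (2 * Real.pi ^ 2))) : ℂ))‖ ≤
    C * orderOf χ₀ * (q : ℝ) ^ (-δ)

/-- FINN -/
def M_FINN : Prop := ∀ (V : ℝ → ℝ) (CV : ℝ), VW V CV → ∀ (N : ℕ), 1 ≤ N → ∀ (c : ℕ → ℝ) (w : ℂ),
  Coef N c → ‖w‖ = 1 → ∀ M : ℕ, 1 ≤ M →
  ∀ ε : ℝ, 0 < ε → ∃ q0 : ℝ, ∀ (q : ℕ) [NeZero q], q0 ≤ q → Nat.Coprime q N →
  ∀ L : DirichletCharacter ℂ q → ℂ,
    (∀ χ : DirichletCharacter ℂ q, χ.IsPrimitive → ∀ X Y : ℝ, 0 < X → 0 < Y →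
      X * Y = N * (q : ℝ) ^ 2 / (4 * Real.pi ^ 2) →
      L χ = ∑' n : ℕ, χ (n : ZMod q) * (c n : ℂ) / n * (V (n / X) : ℂ) +
        w * χ (N : ZMod q) * gaussSum χ (ZMod.stdAddChar (N := q)) ^ 2 / q *
          ∑' n : ℕ, (starRingEnd ℂ) (χ (n : ZMod q)) * (c n : ℂ) / n *
          (V (n / Y) : ℂ)) →
    ∀ χ₀ : DirichletCharacter ℂ q, χ₀.IsPrimitive → (q : ℝ) ^ (3 / 4 + ε) ≤ orderOf χ₀ →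
      ∃ a : ℕ, Nat.Coprime a (orderOf χ₀) ∧ a % M = 1 % M ∧ (χ₀ ^ a).IsPrimitive ∧
        (q : ℝ) ^ (-ε) ≤ ‖L (χ₀ ^ a)‖

end Pool.Agent.W192.CY
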