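import Mathlib
import Pool.Agent.W192.CY.Stq

/-!
# Nonvanishing for characters of large order, newforms with nebentypus (owner helper192)

`f ∈ S_{2m}(Γ₁(N))` a newform with character `η`.  Same as `Stq` with complex coefficients.
-/

set_option autoImplicit false

open Complex Filter Topology Set UpperHalfPlane MatrixGroups CongruenceSubgroup

namespace Pool.Agent.W192.CY

/-- Fourier coefficients -/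
noncomputable def cf {N : ℕ} {k : ℤ} (f : CuspForm (Gamma1 N : Subgroup (GL (Fin 2) ℝ)) k) (n : ℕ) :
    ℂ :=
  (qExpansion 1 f).coeff n

/-- newform of weight `2m`, level `N`, character `η`; `w` is the eigenvalue of the Fricke involution:
`f(-1/(Nτ)) = w (√N τ / i)^(2m) f^c(τ)`, `f^c(τ) = conj f(-conj τ)` -/
structure NNewf (m N : ℕ) (η : DirichletCharacter ℂ N)
    (f : CuspForm (Gamma1 N : Subgroup (GL (Fin 2) ℝ)) (2 * m : ℤ)) (w : ℂ) : Prop where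
  one : cf f 1 = 1
  mul : ∀ a b : ℕ, Nat.Coprime a b → cf f (a * b) = cf f a * cf f b
  pow : ∀ p j : ℕ, p.Prime → cf f (p ^ (j + 2)) = cf f p * cf f (p ^ (j + 1)) -
    η (p : ZMod N) * (p : ℂ) ^ (2 * m - 1) * cf f (p ^ j)
  conj : ∀ p : ℕ, p.Prime → ¬ p ∣ N → (starRingEnd ℂ) (cf f p) =
    (starRingEnd ℂ) (η (p : ZMod N)) * cf f p
  good : ∀ p : ℕ, p.Prime → ¬ p ∣ N → ‖cf f p‖ ≤ 2 * (p : ℝ) ^ ((2 * m - 1 : ℝ) / 2)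
  bad : ∀ p : ℕ, p.Prime → p ∣ N → ‖cf f p‖ ≤ (p : ℝ) ^ ((2 * m - 1 : ℝ) / 2)
  neb : ∀ γ : SL(2, ℤ), γ ∈ Gamma0 N → ∀ τ : ℍ, f (γ • τ) = η ((γ 1 1 : ℤ) : ZMod N) *
    (((γ 1 0 : ℤ) : ℂ) * (τ : ℂ) + ((γ 1 1 : ℤ) : ℂ)) ^ (2 * m) * f τ
  norm : ‖w‖ = 1
  fricke : ∀ τ τ' τc : ℍ, (τ' : ℂ) * ((N : ℂ) * (τ : ℂ)) = -1 →
    (τc : ℂ) = -(starRingEnd ℂ) (τ : ℂ) →
    f τ' = (-1 : ℂ) ^ m * w * (N : ℂ) ^ m * (τ : ℂ) ^ (2 * m) * (starRingEnd ℂ) (f τc)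

/-- TWIST : the theta relation for the twist by a primitive character -/
def N_TWIST : Prop := ∀ (m : ℕ), 1 ≤ m → ∀ (N : ℕ) [NeZero N] (η : DirichletCharacter ℂ N)
  (f : CuspForm (Gamma1 N : Subgroup (GL (Fin 2) ℝ)) (2 * m : ℤ)) (w : ℂ), NNewf m N η f w →
  ∀ (q : ℕ) [NeZero q] (χ : DirichletCharacter ℂ q), Nat.Coprime q N → χ.IsPrimitive →
  ∀ t : ℝ, 0 < t →
    ∑' n : ℕ, χ (n : ZMod q) * cf f n *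
      (Real.exp (-(2 * Real.pi * n / (Real.sqrt N * q)) / t) : ℂ) =
    (w * η (q : ZMod N)) * χ (N : ZMod q) * gaussSum χ (ZMod.stdAddChar (N := q)) ^ 2 / q *
      (t : ℂ) ^ (2 * m) * ∑' n : ℕ, (starRingEnd ℂ) (χ (n : ZMod q) * cf f n) *
      (Real.exp (-(2 * Real.pi * n / (Real.sqrt N * q)) * t) : ℂ)

/-- AFE : the twisted L-function and its value at the centre -/
def N_AFE : Prop := ∀ (m : ℕ), 1 ≤ m → ∀ (N : ℕ) [NeZero N] (η : DirichletCharacter ℂ N)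
  (f : CuspForm (Gamma1 N : Subgroup (GL (Fin 2) ℝ)) (2 * m : ℤ)) (w : ℂ), NNewf m N η f w →
  ∀ (q : ℕ) [NeZero q] (χ : DirichletCharacter ℂ q), Nat.Coprime q N → χ.IsPrimitive →
  ∃ F : ℂ → ℂ, Differentiable ℂ F ∧
    (∀ s : ℂ, (m : ℝ) + 1 / 2 < s.re →
      F s = ∑' n : ℕ, χ (n : ZMod q) * cf f n * (n : ℂ) ^ (-s)) ∧
    ∀ X Y : ℝ, 0 < X → 0 < Y → X * Y = N * (q : ℝ) ^ 2 / (4 * Real.pi ^ 2) →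
      F m =
        ∑' n : ℕ, χ (n : ZMod q) * (cf f n / (n : ℂ) ^ (m - 1)) / n * (Vk m (n / X) : ℂ) +
        (w * η (q : ZMod N)) * χ (N : ZMod q) *
            gaussSum χ (ZMod.stdAddChar (N := q)) ^ 2 / q *
          ∑' n : ℕ, (starRingEnd ℂ) (χ (n : ZMod q)) *
            (starRingEnd ℂ) (cf f n / (n : ℂ) ^ (m - 1)) / n * (Vk m (n / Y) : ℂ)

/-- EUL : the Euler product -/
def N_EUL : Prop := ∀ (m : ℕ), 1 ≤ m → ∀ (N : ℕ) [NeZero N] (η : DirichletCharacter ℂ N)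
  (f : CuspForm (Gamma1 N : Subgroup (GL (Fin 2) ℝ)) (2 * m : ℤ)) (w : ℂ), NNewf m N η f w →
  ∀ (q : ℕ) (χ : DirichletCharacter ℂ q), ∀ s : ℂ, (m : ℝ) + 1 / 2 < s.re →
    Summable (fun n : ℕ => ‖χ (n : ZMod q) * cf f n * (n : ℂ) ^ (-s)‖) ∧
    HasProd (fun p : Nat.Primes => (1 - χ ((p : ℕ) : ZMod q) * cf f p * ((p : ℕ) : ℂ) ^ (-s) +
      χ ((p : ℕ) : ZMod q) ^ 2 * η ((p : ℕ) : ZMod N) *
        ((p : ℕ) : ℂ) ^ (2 * (m : ℂ) - 1 - 2 * s))⁻¹)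
      (∑' n : ℕ, χ (n : ZMod q) * cf f n * (n : ℂ) ^ (-s))

/-- `m` is the Dirichlet inverse of `c`, both are bounded by `τ(n) √n` -/
structure NInv (c m : ℕ → ℂ) : Prop where
  zero : c 0 = 0
  one : m 1 = 1
  inv : ∀ k : ℕ, 1 ≤ k → ∑ x ∈ k.divisorsAntidiagonal, m x.1 * c x.2 = if k = 1 then 1 else 0
  cle : ∀ n : ℕ, 1 ≤ n → ‖c n‖ ≤ n.divisors.card * Real.sqrt n
  mle : ∀ n : ℕ, 1 ≤ n → ‖m n‖ ≤ n.divisors.card * Real.sqrt n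

/-- COEF -/
def N_COEF : Prop := ∀ (m : ℕ), 1 ≤ m → ∀ (N : ℕ) [NeZero N] (η : DirichletCharacter ℂ N)
  (f : CuspForm (Gamma1 N : Subgroup (GL (Fin 2) ℝ)) (2 * m : ℤ)) (w : ℂ), NNewf m N η f w →
  ∃ μ : ℕ → ℂ, NInv (fun n => cf f n / (n : ℂ) ^ (m - 1)) μ

/-- MAINP -/
def N_MAINP : Prop := ∀ (V : ℝ → ℝ) (CV : ℝ), VW V CV → ∀ (c m : ℕ → ℂ), c 1 = 1 → NInv c m →
  ∀ ε : ℝ, 0 < ε → ε < 1 / 4 →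
  ∃ δ C q0 : ℝ, 0 < δ ∧ 0 < C ∧ ∀ (q : ℕ) [NeZero q], q0 ≤ q → ∀ χ₀ : DirichletCharacter ℂ q,
  (q : ℝ) ^ (3 / 4 + ε) ≤ orderOf χ₀ → ∀ M : ℕ, 1 ≤ M → M ∣ orderOf χ₀ →
  ‖∑ b ∈ Finset.Icc 1 ⌊(q : ℝ) ^ (ε / 2)⌋₊, (m b / b) * ∑ χ ∈ Em q χ₀ M,
      χ (b : ZMod q) * (∑' n : ℕ, χ (n : ZMod q) * c n / n *
        (V (n / ((q : ℝ) ^ (3 / 2 : ℝ) / 2)) : ℂ)) - ((Em q χ₀ M).card : ℂ)‖ ≤
    C * orderOf χ₀ * (q : ℝ) ^ (-δ)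

/-- DUALP -/
def N_DUALP : Prop := ∀ (V : ℝ → ℝ) (CV : ℝ), VW V CV → ∀ (N : ℕ), 1 ≤ N → ∀ (c m : ℕ → ℂ),
  NInv c m → ∀ ε : ℝ, 0 < ε → ε < 1 / 4 →
  ∃ δ C q0 : ℝ, 0 < δ ∧ 0 < C ∧ ∀ (q : ℕ) [NeZero q], q0 ≤ q → Nat.Coprime q N →
  ∀ χ₀ : DirichletCharacter ℂ q, (q : ℝ) ^ (3 / 4 + ε) ≤ orderOf χ₀ → ∀ M : ℕ, 1 ≤ M →
  M ∣ orderOf χ₀ →
  ‖∑ b ∈ Finset.Icc 1 ⌊(q : ℝ) ^ (ε / 2)⌋₊, (m b / b) * ∑ χ ∈ Em q χ₀ M,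
      χ (b : ZMod q) * (χ (N : ZMod q) * gaussSum χ (ZMod.stdAddChar (N := q)) ^ 2 / q *
        ∑' n : ℕ, (starRingEnd ℂ) (χ (n : ZMod q)) * (starRingEnd ℂ) (c n) / n *
        (V (n / (N * Real.sqrt q / (2 * Real.pi ^ 2))) : ℂ))‖ ≤
    C * orderOf χ₀ * (q : ℝ) ^ (-δ)

/-- FINN (`w` may depend on `q`) -/
def N_FINN : Prop := ∀ (V : ℝ → ℝ) (CV : ℝ), VW V CV → ∀ (N : ℕ), 1 ≤ N → ∀ (c μ : ℕ → ℂ),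
  c 1 = 1 → NInv c μ → ∀ M : ℕ, 1 ≤ M →
  ∀ ε : ℝ, 0 < ε → ∃ q0 : ℝ, ∀ (q : ℕ) [NeZero q], q0 ≤ q → Nat.Coprime q N →
  ∀ w : ℂ, ‖w‖ = 1 → ∀ L : DirichletCharacter ℂ q → ℂ,
    (∀ χ : DirichletCharacter ℂ q, χ.IsPrimitive → ∀ X Y : ℝ, 0 < X → 0 < Y →
      X * Y = N * (q : ℝ) ^ 2 / (4 * Real.pi ^ 2) →
      L χ = ∑' n : ℕ, χ (n : ZMod q) * c n / n * (V (n / X) : ℂ) +
        w * χ (N : ZMod q) * gaussSum χ (ZMod.stdAddChar (N := q)) ^ 2 / q *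
          ∑' n : ℕ, (starRingEnd ℂ) (χ (n : ZMod q)) * (starRingEnd ℂ) (c n) / n *
          (V (n / Y) : ℂ)) →
    ∀ χ₀ : DirichletCharacter ℂ q, χ₀.IsPrimitive → (q : ℝ) ^ (3 / 4 + ε) ≤ orderOf χ₀ →
      ∃ a : ℕ, Nat.Coprime a (orderOf χ₀) ∧ a % M = 1 % M ∧ (χ₀ ^ a).IsPrimitive ∧
        (q : ℝ) ^ (-ε) ≤ ‖L (χ₀ ^ a)‖

end Pool.Agent.W192.CY
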