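import Pool.Agent.W192.CY.Stq
import Pool.Agent.W388.TW.Parts
import Pool.Agent.W388.TW.Good

/-!
# Assembly : nonvanishing for characters of large order, even weight `2 m`, conjugates `≡ 1 mod M`
-/

set_option autoImplicit false

open Complex Filter Topology Set UpperHalfPlane MatrixGroups CongruenceSubgroup

namespace Pool.Agent.W192.CY

/-- the theorem in the analytic normalisation -/
theorem corem (hvk : K_VK) (hafe : K_AFE) (hfin : M_FINN) (m : ℕ) (hm : 1 ≤ m)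
    {N : ℕ} [NeZero N] {f : CuspForm (Gamma0 N : Subgroup (GL (Fin 2) ℝ)) (2 * m : ℤ)} {w : ℝ}
    (hf : W388.IsNewf N (2 * m : ℤ) f w)
    (hc : Coef N (fun n => ((qExpansion 1 f).coeff n).re / (n : ℝ) ^ (m - 1))) :
    ∃ L : (q : ℕ) → DirichletCharacter ℂ q → ℂ → ℂ,
      (∀ (q : ℕ) (χ : DirichletCharacter ℂ q), 1 ≤ q → Nat.Coprime q N → χ.IsPrimitive →
        Differentiable ℂ (L q χ) ∧ ∀ s : ℂ, 1 < s.re →
          HasProd (fun p : Nat.Primes =>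
            (1 - χ ((p : ℕ) : ZMod q) * (W388.lamf f p : ℂ) * ((p : ℕ) : ℂ) ^ (-s) +
              (if (p : ℕ) ∣ N then 0 else
                χ ((p : ℕ) : ZMod q) ^ 2 * ((p : ℕ) : ℂ) ^ (-2 * s)))⁻¹) (L q χ s)) ∧
      ∀ M : ℕ, 1 ≤ M → ∀ ε : ℝ, 0 < ε → ∃ q0 : ℕ, ∀ q : ℕ, q0 ≤ q → Nat.Coprime q N →
        ∀ χ : DirichletCharacter ℂ q, χ.IsPrimitive → (q : ℝ) ^ (3 / 4 + ε) ≤ orderOf χ →
          ∃ a : ℕ, Nat.Coprime a (orderOf χ) ∧ a ≡ 1 [MOD M] ∧ (χ ^ a).IsPrimitive ∧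
            (q : ℝ) ^ (-ε) ≤ ‖L q (χ ^ a) (1 / 2)‖ := by
  have hN : 0 < N := Nat.pos_of_ne_zero (NeZero.ne N)
  have hH := W388.heckeSeq_lamf hf
  have hk : (1 : ℤ) ≤ (2 * m : ℤ) := by omega
  have hR := W388.p_rs N (2 * m : ℤ) hk f w hf
  obtain ⟨A1, hA1, d1, d2, d3⟩ := W388.p_dir N hN (W388.lamf f) hH hR
  obtain ⟨CV, hCV⟩ := hvk m hm
  classical
  have hex : ∀ (q : ℕ) (χ : DirichletCharacter ℂ q), ∃ F : ℂ → ℂ,
      (1 ≤ q → Nat.Coprime q N → χ.IsPrimitive → Differentiable ℂ F ∧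
        (∀ s : ℂ, 1 < s.re →
          F s = ∑' n : ℕ, χ (n : ZMod q) * (W388.lamf f n : ℂ) * (n : ℂ) ^ (-s)) ∧
        (∀ (_ : NeZero q), ∀ X Y : ℝ, 0 < X → 0 < Y →
          X * Y = N * (q : ℝ) ^ 2 / (4 * Real.pi ^ 2) →
          F (1 / 2) =
            ∑' n : ℕ, χ (n : ZMod q) *
                ((((qExpansion 1 f).coeff n).re / (n : ℝ) ^ (m - 1) : ℝ) : ℂ) / n *
              (Vk m (n / X) : ℂ) +
            (w : ℂ) * χ (N : ZMod q) * gaussSum χ (ZMod.stdAddChar (N := q)) ^ 2 / q *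
              ∑' n : ℕ, (starRingEnd ℂ) (χ (n : ZMod q)) *
                ((((qExpansion 1 f).coeff n).re / (n : ℝ) ^ (m - 1) : ℝ) : ℂ) / n *
              (Vk m (n / Y) : ℂ))) := by
    intro q χ
    by_cases h : 1 ≤ q ∧ Nat.Coprime q N ∧ χ.IsPrimitive
    · obtain ⟨h1, h2, h3⟩ := h
      haveI : NeZero q := ⟨by omega⟩
      obtain ⟨F, hF1, hF2, hF3⟩ := hafe m hm N f w hf q χ h2 h3
      exact ⟨F, fun _ _ _ => ⟨hF1, hF2, fun _ => hF3⟩⟩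
    · exact ⟨fun _ => 0, fun h1 h2 h3 => absurd ⟨h1, h2, h3⟩ h⟩
  choose F hF using hex
  refine ⟨F, ?_, ?_⟩
  · intro q χ hq hqN hχ
    haveI : NeZero q := ⟨by omega⟩
    obtain ⟨h1, h2, _⟩ := hF q χ hq hqN hχ
    exact ⟨h1, (d3 q χ (F q χ) h2).2.2.2.2.2⟩
  · intro M hM ε hε
    have hw : ‖(w : ℂ)‖ = 1 := by
      rcases hf.sign with h | h <;> simp [h]
    obtain ⟨q0, h0⟩ := hfin (Vk m) CV hCV N hN _ (w : ℂ) hc hw M hM ε hε
    refine ⟨max ⌈q0⌉₊ 1, fun q hq hqN χ hχ hord => ?_⟩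
    have hq1 : 1 ≤ q := le_trans (le_max_right _ _) hq
    haveI : NeZero q := ⟨by omega⟩
    have hq0 : q0 ≤ q := (Nat.le_ceil q0).trans (by exact_mod_cast le_trans (le_max_left _ _) hq)
    exact h0 q hq0 hqN (fun χ => F q χ (1 / 2))
      (fun χ hχ X Y hX hY hXY => (hF q χ hq1 hqN hχ).2.2 _ X Y hX hY hXY) χ hχ hord

end Pool.Agent.W192.CY
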